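import Pool.Agent.W16.CM.Stm

open Finset

namespace Pool.Agent.W687.CM

open Pool.Agent.W16.CM

theorem omega_primorial (N : ℕ) : (primorial N).primeFactorsList.length ≤ N := by
  have key : ∀ s : Finset ℕ, (∀ p ∈ s, p.Prime) →
      (∏ p ∈ s, p).primeFactorsList.length = s.card := by
    intro s
    induction s using Finset.induction_on with
    | empty => intro _; simp
    | insert a s ha ih =>
      intro h
      have ha' : a.Prime := h a (Finset.mem_insert_self _ _)
      have hs : ∀ p ∈ s, p.Prime := fun p hp => h p (Finset.mem_insert_of_mem hp)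
      rw [Finset.prod_insert ha, Finset.card_insert_of_notMem ha]
      have hne : (∏ p ∈ s, p) ≠ 0 := Finset.prod_ne_zero_iff.2 (fun p hp => (hs p hp).ne_zero)
      have := (Nat.perm_primeFactorsList_mul ha'.ne_zero hne).length_eq
      rw [this, List.length_append, ih hs, Nat.primeFactorsList_prime ha']
      simp [Nat.add_comm]
  unfold primorial
  rw [key _ (fun p hp => (Finset.mem_filter.1 hp).2)]
  calc ((range (N + 1)).filter Nat.Prime).card ≤ ((range (N + 1)).erase 0).card := by
        apply Finset.card_le_card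
        intro p hp
        rw [Finset.mem_filter] at hp
        exact Finset.mem_erase.2 ⟨hp.2.ne_zero, hp.1⟩
    _ = N := by
        rw [Finset.card_erase_of_mem (Finset.mem_range.2 (Nat.succ_pos N)), Finset.card_range]
        rfl

theorem omega_pow (n k : ℕ) : (n ^ k).primeFactorsList.length = k * n.primeFactorsList.length := by
  have := ArithmeticFunction.cardFactors_pow (m := n) (k := k)
  rwa [ArithmeticFunction.cardFactors_apply, ArithmeticFunction.cardFactors_apply] at this

theorem mm : St_MM := by
  refine ⟨4950, fun T hT => ⟨(primorial (T ^ 90)) ^ (100 * T), ?_, ?_, ?_⟩⟩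
  · exact Nat.one_le_pow _ _ (primorial_pos _)
  · intro r hr hrT hsm
    have hr1 : r - 1 ≠ 0 := by have := hr.two_le; omega
    have hP0 : primorial (T ^ 90) ≠ 0 := (primorial_pos _).ne'
    rw [← Nat.factorization_prime_le_iff_dvd hr1 (pow_ne_zero _ hP0)]
    intro p hp
    by_cases hpd : p ∣ r - 1
    · have hple := hsm p hp hpd
      have hpP : p ∣ primorial (T ^ 90) := by
        unfold primorial
        apply Finset.dvd_prod_of_mem
        rw [Finset.mem_filter, Finset.mem_range]
        exact ⟨by omega, hp⟩
      have h1 : 1 ≤ (primorial (T ^ 90)).factorization p :=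
        (hp.dvd_iff_one_le_factorization hP0).1 hpP
      rw [Nat.factorization_pow]
      have h2 : (r - 1).factorization p ≤ 100 * T := by
        apply Nat.factorization_le_of_le_pow
        calc r - 1 ≤ T ^ 100 := by omega
          _ ≤ (2 ^ T) ^ 100 := Nat.pow_le_pow_left (Nat.lt_two_pow_self).le 100
          _ = 2 ^ (100 * T) := by rw [← pow_mul, Nat.mul_comm]
          _ ≤ p ^ (100 * T) := Nat.pow_le_pow_left hp.two_le _
      calc (r - 1).factorization p ≤ 100 * T := h2
        _ ≤ 100 * T * (primorial (T ^ 90)).factorization p := Nat.le_mul_of_pos_right _ h1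
        _ = _ := by simp
    · rw [Nat.factorization_eq_zero_of_not_dvd hpd]
      exact Nat.zero_le _
  · have hT1 : 1 ≤ T := by omega
    have hL : ((primorial (T ^ 90)) ^ (100 * T)).primeFactorsList.length ≤ 100 * T ^ 91 := by
      rw [omega_pow]
      calc 100 * T * (primorial (T ^ 90)).primeFactorsList.length ≤ 100 * T * T ^ 90 :=
            Nat.mul_le_mul_left _ (omega_primorial _)
        _ = 100 * T ^ 91 := by rw [mul_assoc, ← pow_succ']
    have hM : (primorial (T ^ 90)) ^ (100 * T) ≤ 4 ^ (100 * T ^ 91) := by
      calc (primorial (T ^ 90)) ^ (100 * T) ≤ (4 ^ (T ^ 90)) ^ (100 * T) :=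
            Nat.pow_le_pow_left (primorial_le_four_pow _) _
        _ = 4 ^ (100 * T ^ 91) := by
            rw [← pow_mul]; congr 1; ring
    calc (T ^ 98) ^ ((primorial (T ^ 90)) ^ (100 * T)).primeFactorsList.length *
          (primorial (T ^ 90)) ^ (100 * T)
        ≤ (T ^ 98) ^ (100 * T ^ 91) * 4 ^ (100 * T ^ 91) :=
          Nat.mul_le_mul (Nat.pow_le_pow_right (Nat.one_le_pow _ _ hT1) hL) hM
      _ = (T ^ 98 * 4) ^ (100 * T ^ 91) := by rw [mul_pow]
      _ ≤ (T ^ 99) ^ (100 * T ^ 91) := by
          apply Nat.pow_le_pow_left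
          rw [pow_succ T 98]
          exact Nat.mul_le_mul_left _ (by omega)
      _ = T ^ (9900 * T ^ 91) := by rw [← pow_mul]; congr 1; ring
      _ ≤ T ^ (2 * T ^ 92) := by
          apply Nat.pow_le_pow_right hT1
          calc 9900 * T ^ 91 = 2 * (T ^ 91 * 4950) := by ring
            _ ≤ 2 * (T ^ 91 * T) := by
                apply Nat.mul_le_mul_left; exact Nat.mul_le_mul_left _ hT
            _ = 2 * T ^ 92 := by rw [← pow_succ]

end Pool.Agent.W687.CM
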